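import Pool.Agent.H45.IW.L2
import Pool.Agent.H45.IW.Lim

/-!
# Limit laws of the Ising model with `1 - x` of the order of the mesh (MP_cf20dd)

The definitions are in `Pool.Agent.H58.IW.Defs`.
* `Conf B`: the spin configurations `V → Bool` with spin `true` (plus) at all vertices of `B`.
* `walls G σ`: the number of edges of `G` whose ends have different spins.
* `Ex G B x g`: the expectation of `g` when the probability of `σ ∈ Conf B` is proportional to
  `x ^ walls G σ`.  For `x = 1` the spins outside `B` are independent fair signs.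
-/

set_option autoImplicit false

open Filter Topology

namespace Pool.Agent.Results.MP_cf20dd_pr.ContiguityWindow

open Pool.Agent.H58.IW Pool.Agent.H45.IW

/-- Let `G k` be finite graphs, `B k` sets of vertices (where the spins are plus), `N k` the number of
the other vertices, all of degree at most `D`, `0 < x k` and `(N k)^(1/2) |log (x k)| ≤ M`.
(1) The expectations of every function `g` and of its square for the weights `x k` and `1` satisfy
`(E_x g)^2 ≤ exp (D^2 M^2 / 2) E_1 g^2` and `(E_1 g)^2 ≤ exp (D^2 M^2 / 4) E_x g^2`.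
(2) If random elements `F k σ` of a metric space converge in law to `ν` for the weights `1`, and along a
subsequence to `μ` for the weights `x k`, then `μ(A)^2 ≤ exp (D^2 M^2 / 2) ν(A)` and
`ν(A)^2 ≤ exp (D^2 M^2 / 4) μ(A)` for all Borel sets `A`: `μ` and `ν` have the same null sets. -/
theorem result (V : ℕ → Type) [∀ k, Fintype (V k)] (G : ∀ k, SimpleGraph (V k))
    [∀ k, DecidableRel (G k).Adj] (B : ∀ k, Finset (V k)) (D : ℕ)
    (hD : ∀ k, ∀ v, v ∉ B k → (G k).degree v ≤ D) (x : ℕ → ℝ) (hx : ∀ k, 0 < x k) (M : ℝ)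
    (hM : ∀ k, Real.sqrt ((Fintype.card (V k) - (B k).card : ℕ) : ℝ) * |Real.log (x k)| ≤ M) :
    (∀ k, ∀ g : (V k → Bool) → ℝ,
      Ex (G k) (B k) (x k) g ^ 2 ≤ Real.exp (D ^ 2 * M ^ 2 / 2) * Ex (G k) (B k) 1 (fun σ => g σ ^ 2) ∧
      Ex (G k) (B k) 1 g ^ 2 ≤ Real.exp (D ^ 2 * M ^ 2 / 4) * Ex (G k) (B k) (x k) (fun σ => g σ ^ 2)) ∧
    ∀ (Y : Type) [MetricSpace Y] [MeasurableSpace Y] [BorelSpace Y] (F : ∀ k, (V k → Bool) → Y)
      (ν μ : MeasureTheory.Measure Y) [MeasureTheory.IsFiniteMeasure ν] [MeasureTheory.IsFiniteMeasure μ]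
      (φ : ℕ → ℕ), Tendsto φ atTop atTop →
        (∀ f : BoundedContinuousFunction Y ℝ,
          Tendsto (fun k => Ex (G k) (B k) 1 fun σ => f (F k σ)) atTop (𝓝 (∫ y, f y ∂ν))) →
        (∀ f : BoundedContinuousFunction Y ℝ,
          Tendsto (fun k => Ex (G (φ k)) (B (φ k)) (x (φ k)) fun σ => f (F (φ k) σ)) atTop
            (𝓝 (∫ y, f y ∂μ))) →
        ∀ A : Set Y, MeasurableSet A →
          μ.real A ^ 2 ≤ Real.exp (D ^ 2 * M ^ 2 / 2) * ν.real A ∧
          ν.real A ^ 2 ≤ Real.exp (D ^ 2 * M ^ 2 / 4) * μ.real A := by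
  have hw : ∀ k, ∀ u, u ∉ B k → ∀ σ, walls (G k) (flp u σ) ≤ walls (G k) σ + D := fun k u hu σ =>
    walls_flp (G k) u σ ((deg_inst (G k) u _ _).le.trans (hD k u hu))
  have hlog : ∀ k, ((Fintype.card (V k) - (B k).card : ℕ) : ℝ) * Real.log (1 / x k) ^ 2 ≤ M ^ 2 := by
    intro k
    have h0 : 0 ≤ Real.sqrt ((Fintype.card (V k) - (B k).card : ℕ) : ℝ) * |Real.log (x k)| := by positivity
    have h1 := pow_le_pow_left₀ h0 (hM k) 2
    rw [mul_pow, Real.sq_sqrt (Nat.cast_nonneg _), sq_abs] at h1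
    rw [one_div, Real.log_inv, neg_sq]
    exact h1
  have hnn : ∀ k, ∀ y : ℝ, 0 < y → ∀ g : (V k → Bool) → ℝ, 0 ≤ Ex (G k) (B k) y (fun σ => g σ ^ 2) := by
    intro k y hy g
    unfold Ex
    exact div_nonneg (Finset.sum_nonneg fun _ _ => by positivity) (Finset.sum_nonneg fun _ _ => by positivity)
  have h1 : ∀ k, ∀ g : (V k → Bool) → ℝ,
      Ex (G k) (B k) (x k) g ^ 2 ≤ Real.exp (D ^ 2 * M ^ 2 / 2) * Ex (G k) (B k) 1 (fun σ => g σ ^ 2) := by
    intro k g
    refine (chi (G k) (B k) (hw k) (hx k) g).trans (mul_le_mul_of_nonneg_right (Real.exp_le_exp.2 ?_)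
      (hnn k 1 one_pos g))
    have h2 := mul_le_mul_of_nonneg_left (hlog k) (sq_nonneg (D : ℝ))
    rw [← mul_assoc] at h2
    linarith
  have h2 : ∀ k, ∀ g : (V k → Bool) → ℝ,
      Ex (G k) (B k) 1 g ^ 2 ≤ Real.exp (D ^ 2 * M ^ 2 / 4) * Ex (G k) (B k) (x k) (fun σ => g σ ^ 2) := by
    intro k g
    refine (chi_rev (G k) (B k) (hw k) (hx k) g).trans (mul_le_mul_of_nonneg_right (Real.exp_le_exp.2 ?_)
      (hnn k _ (hx k) g))
    have h3 := mul_le_mul_of_nonneg_left (hlog k) (sq_nonneg (D : ℝ))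
    rw [← mul_assoc] at h3
    linarith
  refine ⟨fun k g => ⟨h1 k g, h2 k g⟩, fun Y _ _ _ F ν μ _ _ φ hφ hν hμ A hA => ⟨?_, ?_⟩⟩
  · refine borel_bound μ ν (Real.exp_pos _).le (fun f => ?_) hA
    have e1 := (hμ f).pow 2
    have e2 := ((hν (f * f)).comp hφ).const_mul (Real.exp (D ^ 2 * M ^ 2 / 2))
    have e3 : ∀ y, (f * f) y = f y ^ 2 := fun y => by
      rw [BoundedContinuousFunction.coe_mul, Pi.mul_apply, sq]
    simp only [Function.comp_def, e3] at e2
    exact le_of_tendsto_of_tendsto' e1 e2 fun k => h1 (φ k) _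
  · refine borel_bound ν μ (Real.exp_pos _).le (fun f => ?_) hA
    have e1 := ((hν f).comp hφ).pow 2
    have e2 := (hμ (f * f)).const_mul (Real.exp (D ^ 2 * M ^ 2 / 4))
    have e3 : ∀ y, (f * f) y = f y ^ 2 := fun y => by
      rw [BoundedContinuousFunction.coe_mul, Pi.mul_apply, sq]
    simp only [e3] at e2
    simp only [Function.comp_def] at e1
    exact le_of_tendsto_of_tendsto' e1 e2 fun k => h2 (φ k) _

end Pool.Agent.Results.MP_cf20dd_pr.ContiguityWindow
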