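import Pool.Agent.H45.IW.Cmp

/-!
# Noise sensitive functions do not see the Ising interaction if `1 - x` is of the order of the mesh (MP_cf20dd)

* `Conf B` (`Pool.Agent.H58.IW`): the spin configurations `V → Bool` with spin `true` (plus) on `B`.
* `walls G σ` (`Pool.Agent.H58.IW`): the number of edges of `G` whose ends have different spins.
* `Ex G B x g` (`Pool.Agent.H58.IW`): the expectation of `g` when the probability of `σ ∈ Conf B` is
  proportional to `x ^ walls G σ`.  For `x = 1` the spins outside `B` are independent fair signs.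
* `chr S σ` (`Pool.Agent.H45.IW`): the product of the spins (`1` or `-1`) of the vertices of `S`.
* `lowWeight B m g` (`Pool.Agent.H45.IW`): the sum of the squares of the Fourier-Walsh coefficients of
  `g` (under independent fair signs outside `B`) over the sets of `1, …, m` vertices outside `B`.
-/

set_option autoImplicit false

open Filter Topology

namespace Pool.Agent.Results.MP_cf20dd_pr.NoiseSensitiveWindow

open Pool.Agent.H58.IW Pool.Agent.H45.IW

/-- Let `G k` be finite graphs, `B k` sets of vertices (where the spins are plus), `N k` the number of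
the other vertices, all of degree at most `D`, `0 < x k` and `(N k)^(1/2) |log (x k)| ≤ M`.
(1) For all `k`, `m` and all functions `g` with `|g| ≤ 1`,
`|E_x g - E_1 g| ≤ exp (D^2 M^2 / 4) (W^(1/2) + D M exp (D M) / (2 (m + 1)^(1/2)))`, where `W` is the
weight of `g` at the Fourier levels `1, …, m` under independent fair signs.
(2) If functions `g k` with `|g k| ≤ 1` are noise sensitive under independent fair signs (for every `m`
the weight at the levels `1, …, m` tends to `0`), then `E_x (g k) - E_1 (g k)` tends to `0`. -/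
theorem result (V : ℕ → Type) [∀ k, Fintype (V k)] (G : ∀ k, SimpleGraph (V k))
    [∀ k, DecidableRel (G k).Adj] (B : ∀ k, Finset (V k)) (D : ℕ)
    (hD : ∀ k, ∀ v, v ∉ B k → (G k).degree v ≤ D) (x : ℕ → ℝ) (hx : ∀ k, 0 < x k) (M : ℝ)
    (hM : ∀ k, Real.sqrt ((Fintype.card (V k) - (B k).card : ℕ) : ℝ) * |Real.log (x k)| ≤ M) :
    (∀ k, ∀ m : ℕ, ∀ g : (V k → Bool) → ℝ, (∀ σ, |g σ| ≤ 1) →
      |Ex (G k) (B k) (x k) g - Ex (G k) (B k) 1 g| ≤ Real.exp (D ^ 2 * M ^ 2 / 4) *
        (Real.sqrt (lowWeight (B k) m g) + D * M * Real.exp (D * M) / 2 / Real.sqrt (m + 1))) ∧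
    ∀ g : ∀ k, (V k → Bool) → ℝ, (∀ k σ, |g k σ| ≤ 1) →
      (∀ m : ℕ, Tendsto (fun k => lowWeight (B k) m (g k)) atTop (𝓝 0)) →
        Tendsto (fun k => Ex (G k) (B k) (x k) (g k) - Ex (G k) (B k) 1 (g k)) atTop (𝓝 0) := by
  have h1 : ∀ k, ∀ m : ℕ, ∀ g : (V k → Bool) → ℝ, (∀ σ, |g σ| ≤ 1) →
      |Ex (G k) (B k) (x k) g - Ex (G k) (B k) 1 g| ≤ Real.exp (D ^ 2 * M ^ 2 / 4) *
        (Real.sqrt (lowWeight (B k) m g) + D * M * Real.exp (D * M) / 2 / Real.sqrt (m + 1)) :=
    fun k m g hg => compare (G k) (B k) (fun u hu σ =>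
      walls_flp (G k) u σ ((deg_inst (G k) u _ _).le.trans (hD k u hu))) (hx k) (hM k) g hg m
  refine ⟨h1, fun g hg hlow => ?_⟩
  rw [Metric.tendsto_atTop]
  intro ε hε
  obtain ⟨E, hE⟩ : ∃ E, E = Real.exp ((D : ℝ) ^ 2 * M ^ 2 / 4) := ⟨_, rfl⟩
  have hE0 : 0 < E := by rw [hE]; exact Real.exp_pos _
  obtain ⟨C, hC⟩ : ∃ C, C = (D : ℝ) * M * Real.exp (D * M) / 2 := ⟨_, rfl⟩
  have hm : Tendsto (fun m : ℕ => E * (C / Real.sqrt ((m : ℝ) + 1))) atTop (𝓝 0) := by
    have e1 : Tendsto (fun m : ℕ => Real.sqrt ((m : ℝ) + 1)) atTop atTop :=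
      Real.tendsto_sqrt_atTop.comp (tendsto_atTop_add_const_right _ _ tendsto_natCast_atTop_atTop)
    have e2 := (e1.const_div_atTop C).const_mul E
    rwa [mul_zero] at e2
  obtain ⟨m, hm1⟩ := ((tendsto_order.1 hm).2 (ε / 2) (by positivity)).exists
  have hk : Tendsto (fun k => E * Real.sqrt (lowWeight (B k) m (g k))) atTop (𝓝 0) := by
    have e1 := ((Real.continuous_sqrt.tendsto 0).comp (hlow m)).const_mul E
    rwa [Real.sqrt_zero, mul_zero] at e1
  obtain ⟨K, hK⟩ := Filter.eventually_atTop.1 ((tendsto_order.1 hk).2 (ε / 2) (by positivity))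
  refine ⟨K, fun k hk1 => ?_⟩
  rw [Real.dist_eq, sub_zero]
  have h2 := h1 k m (g k) (hg k)
  rw [← hE, ← hC, mul_add] at h2
  have h3 := hK k hk1
  linarith

end Pool.Agent.Results.MP_cf20dd_pr.NoiseSensitiveWindow
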