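import Pool.Agent.H58.IW.Main

/-!
# The Ising model near infinite temperature has the scaling limits of percolation (MP_cf20dd)

The definitions are in `Pool.Agent.H58.IW.Defs`.
* `Conf B`: the spin configurations `V → Bool` with spin `true` (plus) at all vertices of `B`.
* `walls G σ`: the number of edges of `G` whose ends have different spins.
* `Ex G B x g`: the expectation of `g` when the probability of `σ ∈ Conf B` is proportional to
  `x ^ walls G σ`.  For `x = 1` the spins outside `B` are independent fair signs.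
-/

set_option autoImplicit false

open Filter Topology

namespace Pool.Agent.Results.MP_cf20dd_pr.PercolationWindow

open Pool.Agent.H58.IW

/-- Let `G k` be finite graphs, `B k` sets of vertices (where the spins are plus), `N k` the number of
the other vertices, all of degree at most `D`, and `0 < x k ≤ 1`.
(1) For every function `g` of the configuration with `|g| ≤ 1`, the expectations of `g` for the
weights `x k` and `1` differ by at most `D (2 N k)^(1/2) log (1 / x k)`.
(2) If `(N k)^(1/2) log (1 / x k) → 0`, then random elements `F k σ` of any topological space (e.g. the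
collection of the domain walls) converge in law to `ν` for the weights `x k` if and only if they do so
for the weight `1` (site percolation with parameter `1/2`). -/
theorem result (V : ℕ → Type) [∀ k, Fintype (V k)] (G : ∀ k, SimpleGraph (V k))
    [∀ k, DecidableRel (G k).Adj] (B : ∀ k, Finset (V k)) (D : ℕ)
    (hD : ∀ k, ∀ v, v ∉ B k → (G k).degree v ≤ D) (x : ℕ → ℝ) (hx : ∀ k, 0 < x k ∧ x k ≤ 1) :
    (∀ k, ∀ g : (V k → Bool) → ℝ, (∀ σ, |g σ| ≤ 1) →
      |Ex (G k) (B k) (x k) g - Ex (G k) (B k) 1 g| ≤
        D * Real.sqrt (2 * ((Fintype.card (V k) - (B k).card : ℕ) : ℝ)) * Real.log (1 / x k)) ∧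
    (Tendsto (fun k => Real.sqrt ((Fintype.card (V k) - (B k).card : ℕ) : ℝ) * Real.log (1 / x k))
        atTop (𝓝 0) →
      ∀ (Y : Type) [TopologicalSpace Y] [MeasurableSpace Y] (F : ∀ k, (V k → Bool) → Y)
        (ν : MeasureTheory.Measure Y),
        (∀ f : BoundedContinuousFunction Y ℝ,
          Tendsto (fun k => Ex (G k) (B k) (x k) fun σ => f (F k σ)) atTop (𝓝 (∫ y, f y ∂ν))) ↔
        ∀ f : BoundedContinuousFunction Y ℝ,
          Tendsto (fun k => Ex (G k) (B k) 1 fun σ => f (F k σ)) atTop (𝓝 (∫ y, f y ∂ν))) := by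
  have h1 : ∀ k, ∀ g : (V k → Bool) → ℝ, (∀ σ, |g σ| ≤ 1) →
      |Ex (G k) (B k) (x k) g - Ex (G k) (B k) 1 g| ≤
        D * Real.sqrt (2 * ((Fintype.card (V k) - (B k).card : ℕ) : ℝ)) * Real.log (1 / x k) := by
    intro k g hg
    have h2 := ex_bound (G k) (B k) (D := D)
      (fun v hv => (deg_inst (G k) v _ _).le.trans (hD k v hv)) (hx k).1 (hx k).2 g hg
    rw [one_div, Real.log_inv]
    exact h2
  refine ⟨h1, fun hlim Y _ _ F ν => ?_⟩
  have hmul : ∀ k (c : ℝ) (y : ℝ) (g : (V k → Bool) → ℝ),
      Ex (G k) (B k) y (fun σ => c * g σ) = c * Ex (G k) (B k) y g := by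
    intro k c y g
    unfold Ex
    rw [← mul_div_assoc, Finset.mul_sum]
    congr 1
    exact Finset.sum_congr rfl fun σ _ => by ring
  have key : ∀ f : BoundedContinuousFunction Y ℝ,
      Tendsto (fun k => (Ex (G k) (B k) (x k) fun σ => f (F k σ)) - Ex (G k) (B k) 1 fun σ => f (F k σ))
        atTop (𝓝 0) := by
    intro f
    obtain ⟨C, hC⟩ : ∃ C : ℝ, C = ‖f‖ + 1 := ⟨_, rfl⟩
    have hC0 : 0 < C := by
      rw [hC]
      positivity
    have h3 : ∀ k, |(Ex (G k) (B k) (x k) fun σ => f (F k σ)) - Ex (G k) (B k) 1 fun σ => f (F k σ)| ≤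
        C * (D * Real.sqrt 2) *
          (Real.sqrt ((Fintype.card (V k) - (B k).card : ℕ) : ℝ) * Real.log (1 / x k)) := by
      intro k
      have h4 := h1 k (fun σ => C⁻¹ * f (F k σ)) (fun σ => by
        rw [abs_mul, abs_of_pos (inv_pos.2 hC0), inv_mul_le_iff₀ hC0, mul_one, hC]
        have := f.norm_coe_le_norm (F k σ)
        rw [Real.norm_eq_abs] at this
        linarith)
      rw [hmul, hmul, ← mul_sub, abs_mul, abs_of_pos (inv_pos.2 hC0), inv_mul_le_iff₀ hC0,
        Real.sqrt_mul (by norm_num)] at h4
      refine h4.trans (le_of_eq ?_)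
      ring
    have h5 : Tendsto (fun k => C * (D * Real.sqrt 2) *
        (Real.sqrt ((Fintype.card (V k) - (B k).card : ℕ) : ℝ) * Real.log (1 / x k))) atTop (𝓝 0) := by
      have := hlim.const_mul (C * (D * Real.sqrt 2))
      rwa [mul_zero] at this
    exact squeeze_zero_norm (fun k => by rw [Real.norm_eq_abs]; exact h3 k) h5
  constructor
  · intro h f
    have h6 := (h f).sub (key f)
    rw [sub_zero] at h6
    refine h6.congr fun k => ?_
    ring
  · intro h f
    have h6 := (h f).add (key f)
    rw [add_zero] at h6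
    refine h6.congr fun k => ?_
    ring

end Pool.Agent.Results.MP_cf20dd_pr.PercolationWindow
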